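import Mathlib

/-!
# Polynomial equivariant `H^*`-series need not be effective
-/

namespace Pool.Agent.Results.MP_3885fd_co.PolynomialNotEffective

open scoped Pointwise

/-- An action of the group `G` on the affine lattice `ℤ^d` by affine lattice automorphisms
`x ↦ ρ(g) x + b(g)`.  The field `lin` is the linear representation `ρ : G → GL_d(ℤ)` (the values
of a monoid homomorphism defined on a group are automatically invertible), and `tr` is the
translation part `b`. -/
structure AffineAction (G : Type) [Group G] (d : ℕ) where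
  /-- the linear part -/
  lin : G →* Matrix (Fin d) (Fin d) ℤ
  /-- the translation part -/
  tr : G → Fin d → ℤ
  tr_mul : ∀ g h, tr (g * h) = (lin g).mulVec (tr h) + tr g

/-- An integer vector, regarded as a real vector. -/
def toReal {d : ℕ} (x : Fin d → ℤ) : Fin d → ℝ := fun i => (x i : ℝ)

/-- The lattice polytope spanned by the finite set `V` of lattice points. -/
def polytope {d : ℕ} (V : Finset (Fin d → ℤ)) : Set (Fin d → ℝ) :=
  convexHull ℝ (toReal '' (V : Set (Fin d → ℤ)))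

section Definitions

variable {G : Type} [Group G] {d : ℕ}

/-- The affine map `x ↦ ρ(g) x + b(g)` of `ℝ^d`. -/
def AffineAction.realMap (A : AffineAction G d) (g : G) (x : Fin d → ℝ) : Fin d → ℝ :=
  ((A.lin g).map (Int.cast : ℤ → ℝ)).mulVec x + toReal (A.tr g)

/-- `G` maps `P` to itself. -/
def Invariant (A : AffineAction G d) (P : Set (Fin d → ℝ)) : Prop :=
  ∀ g, A.realMap g '' P = P

/-- The lattice points of the dilate `m P` fixed by `g`; here `g` acts on `m P` by
`x ↦ ρ(g) x + m b(g)`. -/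
def fixedPoints (A : AffineAction G d) (P : Set (Fin d → ℝ)) (m : ℕ) (g : G) :
    Set (Fin d → ℤ) :=
  {x | toReal x ∈ (m : ℝ) • P ∧ (A.lin g).mulVec x + (m : ℤ) • A.tr g = x}

/-- The permutation character of `G` on the lattice points of `m P`. -/
noncomputable def chi (A : AffineAction G d) (P : Set (Fin d → ℝ)) (m : ℕ) (g : G) : ℤ :=
  ((fixedPoints A P m g).ncard : ℤ)

/-- The equivariant `H^*`-series, evaluated at `g`:
`H^*(t)(g) = (1 - t) det(I - t ρ(g)) ∑_m χ_{mP}(g) t^m`. -/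
noncomputable def hStar (A : AffineAction G d) (P : Set (Fin d → ℝ)) (g : G) : PowerSeries ℤ :=
  (1 - PowerSeries.X) * ((A.lin g).charpolyRev : PowerSeries ℤ) *
    PowerSeries.mk fun m => chi A P m g

/-- The class function `H^*_n` on `G`. -/
noncomputable def hStarCoeff (A : AffineAction G d) (P : Set (Fin d → ℝ)) (n : ℕ) (g : G) : ℤ :=
  PowerSeries.coeff n (hStar A P g)

/-- Only finitely many `H^*_n` are nonzero. -/
def IsPolynomial (A : AffineAction G d) (P : Set (Fin d → ℝ)) : Prop :=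
  ∃ N : ℕ, ∀ n, N < n → ∀ g, hStarCoeff A P n g = 0

/-- Every `H^*_n` is the character of a finite-dimensional complex representation of `G`. -/
def IsEffective (A : AffineAction G d) (P : Set (Fin d → ℝ)) : Prop :=
  ∀ n : ℕ, ∃ W : FDRep ℂ G, ∀ g, W.character g = ((hStarCoeff A P n g : ℤ) : ℂ)

end Definitions

/-! ### Graded counting -/

/-- Hilbert series of a graded set. -/
noncomputable def hil {α : Type} (deg : α → ℕ) : PowerSeries ℤ :=
  PowerSeries.mk fun m => (Nat.card {a // deg a = m} : ℤ)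

/-- A graded product set, by degrees. -/
def prodEquiv {α β : Type} (f : α → ℕ) (g : β → ℕ) (m : ℕ) :
    {p : α × β // f p.1 + g p.2 = m} ≃
      Σ ij : (Finset.HasAntidiagonal.antidiagonal m : Finset (ℕ × ℕ)),
        {a // f a = ij.1.1} × {b // g b = ij.1.2} where
  toFun := fun p => ⟨⟨(f p.1.1, g p.1.2), by
    rw [Finset.HasAntidiagonal.mem_antidiagonal]; exact p.2⟩, ⟨p.1.1, rfl⟩, ⟨p.1.2, rfl⟩⟩
  invFun := fun q => ⟨(q.2.1.1, q.2.2.1), by
    have h := q.1.2
    rw [Finset.HasAntidiagonal.mem_antidiagonal] at h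
    show f q.2.1.1 + g q.2.2.1 = m
    rw [q.2.1.2, q.2.2.2]; exact h⟩
  left_inv := fun p => by simp
  right_inv := fun q => by
    obtain ⟨⟨⟨i, j⟩, h⟩, ⟨a, ha⟩, ⟨b, hb⟩⟩ := q
    simp only at ha hb
    subst ha hb
    rfl

theorem finite_fiber_prod {α β : Type} (f : α → ℕ) (g : β → ℕ)
    (hf : ∀ m, Finite {a // f a = m}) (hg : ∀ m, Finite {b // g b = m}) (m : ℕ) :
    Finite {p : α × β // f p.1 + g p.2 = m} := by
  have := hf
  have := hg
  exact Finite.of_equiv _ (prodEquiv f g m).symm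

theorem hil_prod {α β : Type} (f : α → ℕ) (g : β → ℕ)
    (hf : ∀ m, Finite {a // f a = m}) (hg : ∀ m, Finite {b // g b = m}) :
    hil (fun p : α × β => f p.1 + g p.2) = hil f * hil g := by
  have := hf
  have := hg
  ext m
  rw [PowerSeries.coeff_mul, hil, PowerSeries.coeff_mk]
  rw [Nat.card_congr (prodEquiv f g m), Nat.card_sigma]
  rw [← Finset.sum_coe_sort (Finset.HasAntidiagonal.antidiagonal m)
    (fun p => PowerSeries.coeff p.1 (hil f) * PowerSeries.coeff p.2 (hil g))]
  rw [Nat.cast_sum]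
  refine Finset.sum_congr rfl fun ij _ => ?_
  rw [Nat.card_prod, hil, hil, PowerSeries.coeff_mk, PowerSeries.coeff_mk]
  push_cast
  rfl

theorem fiber_id (m : ℕ) : Finite {a : ℕ // id a = m} := by
  refine Finite.of_injective (β := Unit) (fun _ => ()) ?_
  rintro ⟨a, ha⟩ ⟨b, hb⟩ _
  simp only [id] at ha hb
  subst ha hb
  rfl

theorem hil_id : (1 - PowerSeries.X) * hil (id : ℕ → ℕ) = 1 := by
  have : hil (id : ℕ → ℕ) = PowerSeries.mk 1 := by
    ext m
    rw [hil, PowerSeries.coeff_mk, PowerSeries.coeff_mk]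
    have : Nat.card {a : ℕ // id a = m} = 1 := by
      rw [Nat.card_eq_one_iff_unique]
      refine ⟨⟨?_⟩, ⟨⟨m, rfl⟩⟩⟩
      rintro ⟨a, ha⟩ ⟨b, hb⟩
      simp only [id] at ha hb
      subst ha hb
      rfl
    rw [this]
    rfl
  rw [this, mul_comm, PowerSeries.mk_one_mul_one_sub_eq_one]


/-- The type parametrizing the lattice points of the cone over the simplex. -/
abbrev SType : Type := (((((ℕ × ℕ) × ℕ) × ℕ) × ℕ) × ℕ) × Bool

/-- The degree of the box point. -/
def bdeg (b : Bool) : ℕ := if b then 3 else 0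

/-- The degree. -/
def sdeg (p : SType) : ℕ :=
  ((((((id p.1.1.1.1.1.1 + id p.1.1.1.1.1.2) + id p.1.1.1.1.2) + id p.1.1.1.2) + id p.1.1.2) +
    id p.1.2)) + bdeg p.2

theorem bdeg_fiber (m : ℕ) : Finite {b : Bool // bdeg b = m} := inferInstance

theorem hil_bdeg : hil bdeg = 1 + PowerSeries.X ^ 3 := by
  ext m
  rw [hil, PowerSeries.coeff_mk, map_add, PowerSeries.coeff_one, PowerSeries.coeff_X_pow]
  rw [Nat.card_eq_fintype_card]
  rw [Fintype.card_subtype]
  have : ((Finset.univ.filter fun b : Bool => bdeg b = m).card : ℤ) =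
      (if bdeg false = m then 1 else 0) + (if bdeg true = m then 1 else 0) := by
    rw [Finset.card_filter, Fintype.sum_bool]
    push_cast
    ring
  rw [this]
  simp only [bdeg, Bool.false_eq_true, if_false, if_true]
  congr 1
  · simp only [eq_comm]
  · simp only [eq_comm]

theorem sdeg_fiber (m : ℕ) : Finite {p : SType // sdeg p = m} := by
  have h2 := finite_fiber_prod id id fiber_id fiber_id
  have h3 := finite_fiber_prod _ id h2 fiber_id
  have h4 := finite_fiber_prod _ id h3 fiber_id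
  have h5 := finite_fiber_prod _ id h4 fiber_id
  have h6 := finite_fiber_prod _ id h5 fiber_id
  exact finite_fiber_prod _ bdeg h6 bdeg_fiber m

theorem hil_sdeg : (1 - PowerSeries.X) ^ 6 * hil sdeg = 1 + PowerSeries.X ^ 3 := by
  have h2 := finite_fiber_prod id id fiber_id fiber_id
  have h3 := finite_fiber_prod _ id h2 fiber_id
  have h4 := finite_fiber_prod _ id h3 fiber_id
  have h5 := finite_fiber_prod _ id h4 fiber_id
  have h6 := finite_fiber_prod _ id h5 fiber_id
  have e2 := hil_prod id id fiber_id fiber_id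
  have e3 := hil_prod _ id h2 fiber_id
  have e4 := hil_prod _ id h3 fiber_id
  have e5 := hil_prod _ id h4 fiber_id
  have e6 := hil_prod _ id h5 fiber_id
  have e7 := hil_prod _ bdeg h6 bdeg_fiber
  have : hil sdeg = hil (id : ℕ → ℕ) ^ 6 * (1 + PowerSeries.X ^ 3) := by
    rw [← hil_bdeg]
    calc hil sdeg = _ := e7
      _ = _ := by rw [e6, e5, e4, e3, e2]; ring
  rw [this]
  have h := hil_id
  calc (1 - PowerSeries.X) ^ 6 * (hil (id : ℕ → ℕ) ^ 6 * (1 + PowerSeries.X ^ 3))
      = ((1 - PowerSeries.X) * hil (id : ℕ → ℕ)) ^ 6 * (1 + PowerSeries.X ^ 3) := by ring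
    _ = _ := by rw [h]; ring

/-- Lattice points of the cone over the unit square, with a side condition. -/
def FType (Q : ℕ → ℕ → Prop) : Type := {p : ℕ × ℕ × ℕ // p.2.1 ≤ p.1 ∧ p.2.2 ≤ p.1 ∧ Q p.1 p.2.1}

/-- The degree. -/
def fdeg (Q : ℕ → ℕ → Prop) (p : FType Q) : ℕ := p.1.1

open Classical in
/-- The fibres. -/
noncomputable def fEquiv (Q : ℕ → ℕ → Prop) (m : ℕ) :
    {p : FType Q // fdeg Q p = m} ≃
      ((Finset.range (m + 1)).filter (fun x => Q m x) ×ˢ Finset.range (m + 1) :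
        Finset (ℕ × ℕ)) where
  toFun := fun p => ⟨(p.1.1.2.1, p.1.1.2.2), by
    obtain ⟨⟨⟨s, x, y⟩, h1, h2, h3⟩, hm⟩ := p
    simp only [fdeg] at hm h1 h2 h3
    subst hm
    simp only [Finset.mem_product, Finset.mem_filter, Finset.mem_range]
    exact ⟨⟨by omega, h3⟩, by omega⟩⟩
  invFun := fun q => ⟨⟨(m, q.1.1, q.1.2), by
    have h := q.2
    simp only [Finset.mem_product, Finset.mem_filter, Finset.mem_range] at h
    exact ⟨Nat.le_of_lt_succ h.1.1, Nat.le_of_lt_succ h.2, h.1.2⟩⟩, rfl⟩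
  left_inv := fun p => by
    obtain ⟨⟨⟨s, x, y⟩, h1, h2, h3⟩, hm⟩ := p
    simp only [fdeg] at hm
    subst hm
    rfl
  right_inv := fun q => rfl

theorem fdeg_fiber (Q : ℕ → ℕ → Prop) (m : ℕ) : Finite {p : FType Q // fdeg Q p = m} :=
  Finite.of_equiv _ (fEquiv Q m).symm

theorem card_true (m : ℕ) :
    Nat.card {p : FType (fun _ _ => True) // fdeg _ p = m} = (m + 1) * (m + 1) := by
  classical
  rw [Nat.card_congr (fEquiv _ m), Nat.card_eq_fintype_card, Fintype.card_coe,
    Finset.card_product]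
  simp

theorem card_half_aux (m : ℕ) (S : Finset ℕ) (hS : ∀ x, x ∈ S ↔ x < m + 1 ∧ 2 * x = m) :
    S.card = if m % 2 = 0 then 1 else 0 := by
  split_ifs with h
  · rw [Finset.card_eq_one]
    refine ⟨m / 2, ?_⟩
    ext x
    rw [hS, Finset.mem_singleton]
    omega
  · rw [Finset.card_eq_zero, Finset.eq_empty_iff_forall_notMem]
    intro x hx
    rw [hS] at hx
    omega

theorem card_half (m : ℕ) :
    Nat.card {p : FType (fun s x => 2 * x = s) // fdeg _ p = m} =
      if m % 2 = 0 then m + 1 else 0 := by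
  classical
  rw [Nat.card_congr (fEquiv _ m), Nat.card_eq_fintype_card, Fintype.card_coe,
    Finset.card_product]
  rw [Finset.card_range, card_half_aux m]
  · split_ifs
    · rw [one_mul]
    · rw [zero_mul]
  · intro x
    simp only [Finset.mem_filter, Finset.mem_range]

theorem one_sub_mul_mk (f : ℕ → ℤ) :
    (1 - PowerSeries.X) * PowerSeries.mk f =
      PowerSeries.mk (fun n => f n - if n = 0 then 0 else f (n - 1)) := by
  ext n
  rw [sub_mul, one_mul, map_sub, PowerSeries.coeff_mk, PowerSeries.coeff_mk]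
  rcases n with _ | n
  · simp
  · rw [PowerSeries.coeff_succ_X_mul, PowerSeries.coeff_mk]
    simp

theorem one_sub_sq_mul_mk (f : ℕ → ℤ) :
    (1 - PowerSeries.X ^ 2) * PowerSeries.mk f =
      PowerSeries.mk (fun n => f n - if n < 2 then 0 else f (n - 2)) := by
  ext n
  rw [sub_mul, one_mul, map_sub, PowerSeries.coeff_mk, PowerSeries.coeff_mk,
    PowerSeries.coeff_X_pow_mul']
  congr 1
  split_ifs with h1 h2
  · omega
  · rw [PowerSeries.coeff_mk]
  · rfl
  · omega

theorem hil_true : (1 - PowerSeries.X) ^ 3 * hil (fdeg (fun _ _ => True)) =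
    1 + PowerSeries.X := by
  have e : hil (fdeg (fun _ _ => True)) = PowerSeries.mk fun m : ℕ => ((m : ℤ) + 1) ^ 2 := by
    ext m
    rw [hil, PowerSeries.coeff_mk, PowerSeries.coeff_mk, card_true]
    push_cast
    ring
  rw [e, pow_succ, pow_succ, pow_one, mul_assoc, mul_assoc, one_sub_mul_mk, one_sub_mul_mk,
    one_sub_mul_mk]
  ext n
  rw [PowerSeries.coeff_mk, map_add, PowerSeries.coeff_one, PowerSeries.coeff_X]
  rcases n with _ | _ | _ | n
  · simp
  · simp
  · simp
  · simp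
    ring

theorem hil_half : (1 - PowerSeries.X ^ 2) ^ 2 * hil (fdeg (fun s x => 2 * x = s)) =
    1 + PowerSeries.X ^ 2 := by
  have e : hil (fdeg (fun s x => 2 * x = s)) =
      PowerSeries.mk fun m : ℕ => if m % 2 = 0 then (m : ℤ) + 1 else 0 := by
    ext m
    rw [hil, PowerSeries.coeff_mk, PowerSeries.coeff_mk, card_half]
    push_cast
    rfl
  rw [e, pow_succ, pow_one, mul_assoc, one_sub_sq_mul_mk, one_sub_sq_mul_mk]
  ext n
  rw [PowerSeries.coeff_mk, map_add, PowerSeries.coeff_one, PowerSeries.coeff_X_pow]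
  rcases n with _ | _ | _ | _ | n
  · simp
  · simp
  · simp
  · simp
  · have h4 : (n + 4) % 2 = n % 2 := by omega
    have h2 : (n + 2) % 2 = n % 2 := by omega
    simp [h4, h2]
    split_ifs
    · ring
    · rfl


/-! ### The polytope -/

/-- The ten vertices. -/
def vert : Fin 10 → Fin 8 → ℤ :=
  ![![0, 0, 0, 0, 0, 0, 0, 0], ![1, 0, 0, 0, 0, 0, 0, 0], ![0, 1, 0, 0, 0, 0, 0, 0],
    ![1, 1, 0, 0, 0, 0, 0, 0], ![0, 0, 0, 0, 0, 0, 0, 1], ![0, 0, 1, 0, 0, 0, 0, 1],
    ![0, 0, 0, 1, 0, 0, 0, 1], ![0, 0, 0, 0, 1, 0, 0, 1], ![0, 0, 0, 0, 0, 1, 0, 1],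
    ![0, 0, 1, 1, 1, 1, 2, 1]]

/-- The vertex set. -/
def vertices : Finset (Fin 8 → ℤ) := Finset.univ.image vert

/-- The dilates of the polytope, by inequalities. -/
def region (m : ℝ) : Set (Fin 8 → ℝ) :=
  {z | 0 ≤ z 0 ∧ 0 ≤ z 1 ∧ z 0 + z 7 ≤ m ∧ z 1 + z 7 ≤ m ∧ 0 ≤ z 6 ∧ z 6 ≤ 2 * z 2 ∧
    z 6 ≤ 2 * z 3 ∧ z 6 ≤ 2 * z 4 ∧ z 6 ≤ 2 * z 5 ∧
    2 * (z 2 + z 3 + z 4 + z 5) ≤ 3 * z 6 + 2 * z 7}

theorem convex_region (m : ℝ) : Convex ℝ (region m) := by
  rintro x ⟨h1, h2, h3, h4, h5, h6, h7, h8, h9, h10⟩ y ⟨k1, k2, k3, k4, k5, k6, k7, k8, k9, k10⟩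
    a b ha hb hab
  have hm : m = a * m + b * m := by rw [← add_mul, hab, one_mul]
  simp only [region, Set.mem_ofPred_eq, Pi.add_apply, Pi.smul_apply, smul_eq_mul]
  refine ⟨?_, ?_, ?_, ?_, ?_, ?_, ?_, ?_, ?_, ?_⟩
  · linarith [mul_le_mul_of_nonneg_left h1 ha, mul_le_mul_of_nonneg_left k1 hb]
  · linarith [mul_le_mul_of_nonneg_left h2 ha, mul_le_mul_of_nonneg_left k2 hb]
  · linarith [mul_le_mul_of_nonneg_left h3 ha, mul_le_mul_of_nonneg_left k3 hb]
  · linarith [mul_le_mul_of_nonneg_left h4 ha, mul_le_mul_of_nonneg_left k4 hb]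
  · linarith [mul_le_mul_of_nonneg_left h5 ha, mul_le_mul_of_nonneg_left k5 hb]
  · linarith [mul_le_mul_of_nonneg_left h6 ha, mul_le_mul_of_nonneg_left k6 hb]
  · linarith [mul_le_mul_of_nonneg_left h7 ha, mul_le_mul_of_nonneg_left k7 hb]
  · linarith [mul_le_mul_of_nonneg_left h8 ha, mul_le_mul_of_nonneg_left k8 hb]
  · linarith [mul_le_mul_of_nonneg_left h9 ha, mul_le_mul_of_nonneg_left k9 hb]
  · linarith [mul_le_mul_of_nonneg_left h10 ha, mul_le_mul_of_nonneg_left k10 hb]

theorem smul_region {a c : ℝ} (hc : 0 ≤ c) {x : Fin 8 → ℝ} (hx : x ∈ region a) :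
    c • x ∈ region (c * a) := by
  obtain ⟨h1, h2, h3, h4, h5, h6, h7, h8, h9, h10⟩ := hx
  simp only [region, Set.mem_ofPred_eq, Pi.smul_apply, smul_eq_mul]
  refine ⟨?_, ?_, ?_, ?_, ?_, ?_, ?_, ?_, ?_, ?_⟩
  · linarith [mul_le_mul_of_nonneg_left h1 hc]
  · linarith [mul_le_mul_of_nonneg_left h2 hc]
  · linarith [mul_le_mul_of_nonneg_left h3 hc]
  · linarith [mul_le_mul_of_nonneg_left h4 hc]
  · linarith [mul_le_mul_of_nonneg_left h5 hc]
  · linarith [mul_le_mul_of_nonneg_left h6 hc]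
  · linarith [mul_le_mul_of_nonneg_left h7 hc]
  · linarith [mul_le_mul_of_nonneg_left h8 hc]
  · linarith [mul_le_mul_of_nonneg_left h9 hc]
  · linarith [mul_le_mul_of_nonneg_left h10 hc]

theorem vert_mem_region (i : Fin 10) : toReal (vert i) ∈ region 1 := by
  fin_cases i <;> simp [region, toReal, vert] <;> norm_num

theorem polytope_vertices : polytope vertices = region 1 := by
  apply Set.Subset.antisymm
  · apply convexHull_min _ (convex_region 1)
    rintro _ ⟨v, hv, rfl⟩
    simp only [vertices, Finset.coe_image, Finset.coe_univ, Set.image_univ, Set.mem_range] at hv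
    obtain ⟨i, rfl⟩ := hv
    exact vert_mem_region i
  · rintro z ⟨h1, h2, h3, h4, h5, h6, h7, h8, h9, h10⟩
    obtain ⟨a, ha0, hax, hay, has⟩ : ∃ a : ℝ, 0 ≤ a ∧ a ≤ z 0 ∧ a ≤ z 1 ∧
        z 0 + z 1 - a ≤ 1 - z 7 := by
      rcases le_total (z 0) (z 1) with h | h
      · exact ⟨z 0, h1, le_rfl, h, by linarith⟩
      · exact ⟨z 1, h2, h, le_rfl, by linarith⟩
    let w : Fin 10 → ℝ := ![1 - z 7 - z 0 - z 1 + a, z 0 - a, z 1 - a, a,
      z 7 - (z 2 + z 3 + z 4 + z 5) + 3 * (z 6 / 2), z 2 - z 6 / 2, z 3 - z 6 / 2, z 4 - z 6 / 2,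
      z 5 - z 6 / 2, z 6 / 2]
    have hw0 : ∀ i ∈ (Finset.univ : Finset (Fin 10)), 0 ≤ w i := by
      intro i _
      fin_cases i <;> simp [w] <;> linarith
    have hw1 : ∑ i : Fin 10, w i = 1 := by
      simp [w, Fin.sum_univ_succ]
      ring
    have key := (convex_convexHull ℝ (toReal '' (vertices : Set (Fin 8 → ℤ)))).sum_mem hw0 hw1
      (z := fun i => toReal (vert i)) (fun i _ => subset_convexHull ℝ _
        ⟨vert i, by simp [vertices], rfl⟩)
    have hz : ∑ i : Fin 10, w i • toReal (vert i) = z := by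
      ext j
      fin_cases j <;> simp [w, Fin.sum_univ_succ, toReal, vert] <;> ring
    rw [hz] at key
    exact key

theorem smul_polytope (m : ℕ) : (m : ℝ) • polytope vertices = region m := by
  rw [polytope_vertices]
  rcases Nat.eq_zero_or_pos m with rfl | hm
  · rw [Nat.cast_zero, Set.zero_smul_set ⟨toReal (vert 0), vert_mem_region 0⟩]
    ext z
    simp only [Set.mem_zero]
    constructor
    · rintro rfl
      simp [region]
    · rintro ⟨h1, h2, h3, h4, h5, h6, h7, h8, h9, h10⟩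
      ext j
      fin_cases j <;> simp <;> linarith
  · have hm' : (0 : ℝ) < m := by exact_mod_cast hm
    ext z
    rw [Set.mem_smul_set_iff_inv_smul_mem₀ hm'.ne']
    constructor
    · intro h
      have := smul_region hm'.le h
      rwa [mul_one, smul_inv_smul₀ hm'.ne'] at this
    · intro h
      have := smul_region (inv_nonneg.2 hm'.le) h
      rwa [inv_mul_cancel₀ hm'.ne'] at this

theorem affineSpan_polytope : affineSpan ℝ (polytope vertices) = ⊤ := by
  rw [polytope_vertices, ← (convex_region 1).interior_nonempty_iff_affineSpan_eq_top]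
  let U : Set (Fin 8 → ℝ) := {z | 0 < z 0 ∧ 0 < z 1 ∧ z 0 + z 7 < 1 ∧ z 1 + z 7 < 1 ∧ 0 < z 6 ∧
    z 6 < 2 * z 2 ∧ z 6 < 2 * z 3 ∧ z 6 < 2 * z 4 ∧ z 6 < 2 * z 5 ∧
    2 * (z 2 + z 3 + z 4 + z 5) < 3 * z 6 + 2 * z 7}
  have hU : IsOpen U := by
    have e : U = {z : Fin 8 → ℝ | 0 < z 0} ∩ ({z | 0 < z 1} ∩ ({z | z 0 + z 7 < 1} ∩
        ({z | z 1 + z 7 < 1} ∩ ({z | 0 < z 6} ∩ ({z | z 6 < 2 * z 2} ∩ ({z | z 6 < 2 * z 3} ∩
        ({z | z 6 < 2 * z 4} ∩ ({z | z 6 < 2 * z 5} ∩
        {z | 2 * (z 2 + z 3 + z 4 + z 5) < 3 * z 6 + 2 * z 7})))))))) := rfl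
    rw [e]
    refine IsOpen.inter ?_ (IsOpen.inter ?_ (IsOpen.inter ?_ (IsOpen.inter ?_ (IsOpen.inter ?_
      (IsOpen.inter ?_ (IsOpen.inter ?_ (IsOpen.inter ?_ (IsOpen.inter ?_ ?_)))))))) <;>
    exact isOpen_lt (by fun_prop) (by fun_prop)
  have hUR : U ⊆ region 1 := by
    rintro z ⟨h1, h2, h3, h4, h5, h6, h7, h8, h9, h10⟩
    exact ⟨h1.le, h2.le, h3.le, h4.le, h5.le, h6.le, h7.le, h8.le, h9.le, h10.le⟩
  refine ⟨![1/4, 1/4, 1/10, 1/10, 1/10, 1/10, 1/10, 1/2], interior_maximal hUR hU ?_⟩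
  simp [U]
  norm_num

/-! ### The action -/

/-- The linear part of the nontrivial element. -/
def flip : Matrix (Fin 8) (Fin 8) ℤ := fun i j =>
  if i = 0 then (if j = 0 then -1 else if j = 7 then -1 else 0) else if i = j then 1 else 0

theorem flip_aux : ∀ i j : Fin 8, (∑ k, flip i k * flip k j) = if i = j then 1 else 0 := by
  decide

theorem flip_mul_flip : flip * flip = 1 := by
  ext i j
  rw [Matrix.mul_apply, Matrix.one_apply]
  exact flip_aux i j

/-- The linear part. -/
def linPart (u : ℤˣ) : Matrix (Fin 8) (Fin 8) ℤ := if u = 1 then 1 else flip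

/-- The translation part. -/
def trPart (u : ℤˣ) : Fin 8 → ℤ := if u = 1 then 0 else Pi.single 0 1

theorem neg_one_ne : (-1 : ℤˣ) ≠ 1 := by decide

theorem linPart_one : linPart 1 = 1 := if_pos rfl

theorem linPart_neg : linPart (-1) = flip := if_neg neg_one_ne

theorem trPart_one : trPart 1 = 0 := if_pos rfl

theorem trPart_neg : trPart (-1) = Pi.single 0 1 := if_neg neg_one_ne

theorem flip_mulVec (x : Fin 8 → ℤ) :
    flip.mulVec x = fun i => if i = 0 then -x 0 - x 7 else x i := by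
  ext i
  fin_cases i <;> simp [flip, Matrix.mulVec, dotProduct, Fin.sum_univ_succ, sub_eq_add_neg]

theorem flip_mulVec_real (x : Fin 8 → ℝ) :
    (flip.map (Int.cast : ℤ → ℝ)).mulVec x = fun i => if i = 0 then -x 0 - x 7 else x i := by
  ext i
  fin_cases i <;> simp [flip, Matrix.mulVec, dotProduct, Fin.sum_univ_succ, sub_eq_add_neg]

/-- The action of the group of order two. -/
def action : AffineAction ℤˣ 8 where
  lin :=
    { toFun := linPart
      map_one' := linPart_one
      map_mul' := by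
        intro u v
        rcases Int.units_eq_one_or u with rfl | rfl <;>
          rcases Int.units_eq_one_or v with rfl | rfl
        · rw [mul_one, linPart_one, mul_one]
        · rw [one_mul, linPart_one, one_mul]
        · rw [mul_one, linPart_one, mul_one]
        · rw [neg_mul_neg, one_mul, linPart_one, linPart_neg, flip_mul_flip] }
  tr := trPart
  tr_mul := by
    intro u v
    show trPart (u * v) = (linPart u).mulVec (trPart v) + trPart u
    rcases Int.units_eq_one_or u with rfl | rfl <;>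
      rcases Int.units_eq_one_or v with rfl | rfl
    · rw [mul_one, trPart_one, linPart_one, Matrix.one_mulVec, add_zero]
    · rw [one_mul, trPart_one, linPart_one, Matrix.one_mulVec, add_zero]
    · rw [mul_one, trPart_one, linPart_neg, Matrix.mulVec_zero, zero_add]
    · rw [neg_mul_neg, one_mul, trPart_one, linPart_neg, trPart_neg, flip_mulVec]
      ext i
      fin_cases i <;> simp

theorem realMap_one (x : Fin 8 → ℝ) : action.realMap 1 x = x := by
  show ((linPart 1).map (Int.cast : ℤ → ℝ)).mulVec x + toReal (trPart 1) = x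
  rw [linPart_one, trPart_one]
  have h1 : ((1 : Matrix (Fin 8) (Fin 8) ℤ).map (Int.cast : ℤ → ℝ)) = 1 := by
    ext i j
    simp [Matrix.one_apply]
  have h2 : toReal (0 : Fin 8 → ℤ) = 0 := by
    ext i
    simp [toReal]
  rw [h1, h2, Matrix.one_mulVec, add_zero]

theorem realMap_neg (x : Fin 8 → ℝ) :
    action.realMap (-1) x = fun i => if i = 0 then 1 - x 0 - x 7 else x i := by
  show ((linPart (-1)).map (Int.cast : ℤ → ℝ)).mulVec x + toReal (trPart (-1)) = _
  rw [linPart_neg, trPart_neg, flip_mulVec_real]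
  ext i
  fin_cases i <;> simp [toReal]
  ring

theorem realMap_neg_mem {x : Fin 8 → ℝ} (hx : x ∈ region 1) :
    action.realMap (-1) x ∈ region 1 := by
  obtain ⟨h1, h2, h3, h4, h5, h6, h7, h8, h9, h10⟩ := hx
  rw [realMap_neg]
  simp only [region, Set.mem_ofPred_eq]
  refine ⟨?_, h2, ?_, h4, h5, h6, h7, h8, h9, h10⟩
  · simp only [if_true]
    linarith
  · have : (7 : Fin 8) ≠ 0 := by decide
    simp only [if_true, this, if_false]
    linarith

theorem realMap_neg_neg (x : Fin 8 → ℝ) : action.realMap (-1) (action.realMap (-1) x) = x := by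
  rw [realMap_neg, realMap_neg]
  ext i
  fin_cases i <;> simp
  ring

theorem invariant_polytope : Invariant action (polytope vertices) := by
  intro u
  rw [polytope_vertices]
  rcases Int.units_eq_one_or u with rfl | rfl
  · have : action.realMap 1 = id := funext realMap_one
    rw [this, Set.image_id]
  · apply Set.Subset.antisymm
    · rintro _ ⟨x, hx, rfl⟩
      exact realMap_neg_mem hx
    · intro x hx
      exact ⟨_, realMap_neg_mem hx, realMap_neg_neg x⟩

/-! ### Counting lattice points -/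

/-- Integer version of the inequalities. -/
def regionZ (m : ℤ) (z : Fin 8 → ℤ) : Prop :=
  0 ≤ z 0 ∧ 0 ≤ z 1 ∧ z 0 + z 7 ≤ m ∧ z 1 + z 7 ≤ m ∧ 0 ≤ z 6 ∧ z 6 ≤ 2 * z 2 ∧
    z 6 ≤ 2 * z 3 ∧ z 6 ≤ 2 * z 4 ∧ z 6 ≤ 2 * z 5 ∧
    2 * (z 2 + z 3 + z 4 + z 5) ≤ 3 * z 6 + 2 * z 7

theorem toReal_mem (m : ℕ) (z : Fin 8 → ℤ) : toReal z ∈ region m ↔ regionZ m z := by
  simp only [region, regionZ, toReal, Set.mem_ofPred_eq]
  constructor
  · rintro ⟨h1, h2, h3, h4, h5, h6, h7, h8, h9, h10⟩
    exact ⟨by exact_mod_cast h1, by exact_mod_cast h2, by exact_mod_cast h3,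
      by exact_mod_cast h4, by exact_mod_cast h5, by exact_mod_cast h6, by exact_mod_cast h7,
      by exact_mod_cast h8, by exact_mod_cast h9, by exact_mod_cast h10⟩
  · rintro ⟨h1, h2, h3, h4, h5, h6, h7, h8, h9, h10⟩
    exact ⟨by exact_mod_cast h1, by exact_mod_cast h2, by exact_mod_cast h3,
      by exact_mod_cast h4, by exact_mod_cast h5, by exact_mod_cast h6, by exact_mod_cast h7,
      by exact_mod_cast h8, by exact_mod_cast h9, by exact_mod_cast h10⟩

/-- The box coordinate. -/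
def bz (b : Bool) : ℕ := if b then 1 else 0

/-- The parametrization of the lattice points. -/
def param (Q : ℕ → ℕ → Prop) (p : FType Q × SType) : Fin 8 → ℤ :=
  ![p.1.1.2.1, p.1.1.2.2,
    p.2.1.1.1.1.1.2 + p.2.1.2 + bz p.2.2, p.2.1.1.1.1.2 + p.2.1.2 + bz p.2.2,
    p.2.1.1.1.2 + p.2.1.2 + bz p.2.2, p.2.1.1.2 + p.2.1.2 + bz p.2.2,
    2 * p.2.1.2 + bz p.2.2,
    p.2.1.1.1.1.1.1 + p.2.1.1.1.1.1.2 + p.2.1.1.1.1.2 + p.2.1.1.1.2 + p.2.1.1.2 + p.2.1.2 +
      3 * bz p.2.2]

theorem card_param (Q : ℕ → ℕ → Prop) (m : ℕ) (S : Set (Fin 8 → ℤ))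
    (hS : ∀ z, z ∈ S ↔ regionZ m z ∧ Q ((m : ℤ) - z 7).toNat (z 0).toNat) :
    S.ncard = Nat.card {p : FType Q × SType // fdeg Q p.1 + sdeg p.2 = m} := by
  rw [← Nat.card_coe_set_eq]
  symm
  refine Nat.card_congr (Equiv.ofBijective
    (fun p => (⟨param Q p.1, ?_⟩ : S)) ⟨?_, ?_⟩)
  · obtain ⟨⟨⟨⟨s, x, y⟩, h1, h2, h3⟩, ⟨⟨⟨⟨⟨⟨n0, n1⟩, n2⟩, n3⟩, n4⟩, n5⟩, b⟩⟩, hm⟩ := p
    rw [hS]
    cases b <;>
    · simp only [fdeg, sdeg, bdeg, id, Bool.false_eq_true, if_false, if_true] at hm h1 h2 h3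
      simp [regionZ, param, bz]
      refine ⟨by omega, ?_⟩
      convert h3 using 1
      omega
  · rintro ⟨⟨⟨⟨s, x, y⟩, h1, h2, h3⟩, ⟨⟨⟨⟨⟨⟨n0, n1⟩, n2⟩, n3⟩, n4⟩, n5⟩, b⟩⟩, hm⟩
      ⟨⟨⟨⟨s', x', y'⟩, h1', h2', h3'⟩, ⟨⟨⟨⟨⟨⟨n0', n1'⟩, n2'⟩, n3'⟩, n4'⟩, n5'⟩, b'⟩⟩, hm'⟩ heq
    have heq' := congrArg Subtype.val heq
    have e : ∀ i, _ := fun i => congrFun heq' i
    have e0 := e 0
    have e1 := e 1
    have e2 := e 2
    have e3 := e 3
    have e4 := e 4
    have e5 := e 5
    have e6 := e 6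
    have e7 := e 7
    clear e heq heq'
    simp only [param, Matrix.cons_val] at e0 e1 e2 e3 e4 e5 e6 e7
    simp only [fdeg, sdeg, id] at hm hm' h1 h2 h1' h2'
    have hb : b = b' := by
      cases b <;> cases b' <;> simp only [bz, Bool.false_eq_true, if_false, if_true] at e6 <;>
        first | rfl | omega
    subst hb
    have hx : x = x' := by omega
    have hy : y = y' := by omega
    have h5 : n5 = n5' := by omega
    have hn1 : n1 = n1' := by omega
    have hn2 : n2 = n2' := by omega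
    have hn3 : n3 = n3' := by omega
    have hn4 : n4 = n4' := by omega
    have hn0 : n0 = n0' := by omega
    subst hx hy h5 hn1 hn2 hn3 hn4 hn0
    have hs : s = s' := by omega
    subst hs
    rfl
  · rintro ⟨z, hz⟩
    rw [hS] at hz
    obtain ⟨⟨h1, h2, h3, h4, h5, h6, h7, h8, h9, h10⟩, hQ⟩ := hz
    obtain ⟨b, hb⟩ : ∃ b : Bool, (bz b : ℤ) = z 6 % 2 := by
      rcases Int.emod_two_eq_zero_or_one (z 6) with h | h
      · exact ⟨false, by rw [h]; rfl⟩
      · exact ⟨true, by rw [h]; rfl⟩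
    have hbd : bdeg b = 3 * bz b := by
      cases b <;> rfl
    have hb0 : (0 : ℤ) ≤ bz b := Int.natCast_nonneg _
    have hb1 : (bz b : ℤ) ≤ 1 := by omega
    obtain ⟨q, hq⟩ := Int.eq_ofNat_of_zero_le (a := z 6 / 2) (by omega)
    have e6 : z 6 = 2 * (q : ℤ) + bz b := by omega
    obtain ⟨n1, hn1⟩ := Int.eq_ofNat_of_zero_le (a := z 2 - q - bz b) (by omega)
    obtain ⟨n2, hn2⟩ := Int.eq_ofNat_of_zero_le (a := z 3 - q - bz b) (by omega)
    obtain ⟨n3, hn3⟩ := Int.eq_ofNat_of_zero_le (a := z 4 - q - bz b) (by omega)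
    obtain ⟨n4, hn4⟩ := Int.eq_ofNat_of_zero_le (a := z 5 - q - bz b) (by omega)
    obtain ⟨n0, hn0⟩ := Int.eq_ofNat_of_zero_le
      (a := z 7 - n1 - n2 - n3 - n4 - q - 3 * bz b) (by omega)
    obtain ⟨x, hx⟩ := Int.eq_ofNat_of_zero_le (a := z 0) h1
    obtain ⟨y, hy⟩ := Int.eq_ofNat_of_zero_le (a := z 1) h2
    obtain ⟨s, hs⟩ := Int.eq_ofNat_of_zero_le (a := (m : ℤ) - z 7) (by omega)
    have hQ' : Q s x := by
      rw [hs, hx] at hQ
      exact hQ
    refine ⟨⟨⟨⟨(s, x, y), ?_, ?_, hQ'⟩, ⟨⟨⟨⟨⟨⟨n0, n1⟩, n2⟩, n3⟩, n4⟩, q⟩, b⟩⟩, ?_⟩, ?_⟩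
    · show x ≤ s
      omega
    · show y ≤ s
      omega
    · show s + (n0 + n1 + n2 + n3 + n4 + q + bdeg b) = m
      rw [hbd]
      omega
    · apply Subtype.ext
      show param Q _ = z
      ext i
      fin_cases i
      · show (x : ℤ) = z 0
        omega
      · show (y : ℤ) = z 1
        omega
      · show (n1 : ℤ) + q + bz b = z 2
        omega
      · show (n2 : ℤ) + q + bz b = z 3
        omega
      · show (n3 : ℤ) + q + bz b = z 4
        omega
      · show (n4 : ℤ) + q + bz b = z 5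
        omega
      · show 2 * (q : ℤ) + bz b = z 6
        omega
      · show (n0 : ℤ) + n1 + n2 + n3 + n4 + q + 3 * bz b = z 7
        omega

/-- Counting series of all lattice points. -/
theorem chi_one (m : ℕ) : chi action (polytope vertices) m 1 =
    (Nat.card {p : FType (fun _ _ => True) × SType // fdeg _ p.1 + sdeg p.2 = m} : ℤ) := by
  rw [chi, card_param (fun _ _ => True) m]
  intro z
  rw [fixedPoints, smul_polytope]
  simp only [Set.mem_ofPred_eq, and_true]
  rw [toReal_mem]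
  have : (linPart 1).mulVec z + (m : ℤ) • trPart 1 = z := by
    rw [linPart_one, trPart_one, Matrix.one_mulVec, smul_zero, add_zero]
  constructor
  · exact fun h => h.1
  · exact fun h => ⟨h, this⟩

/-- Counting series of the fixed lattice points. -/
theorem chi_neg (m : ℕ) : chi action (polytope vertices) m (-1) =
    (Nat.card {p : FType (fun s x => 2 * x = s) × SType // fdeg _ p.1 + sdeg p.2 = m} : ℤ) := by
  rw [chi, card_param (fun s x => 2 * x = s) m]
  intro z
  rw [fixedPoints, smul_polytope]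
  simp only [Set.mem_ofPred_eq]
  rw [toReal_mem]
  have key : ((linPart (-1)).mulVec z + (m : ℤ) • trPart (-1) = z) ↔ 2 * z 0 = m - z 7 := by
    rw [linPart_neg, trPart_neg, flip_mulVec]
    constructor
    · intro h
      have := congrFun h 0
      simp at this
      linarith
    · intro h
      ext i
      fin_cases i <;> simp
      linarith
  show _ ∧ ((linPart (-1)).mulVec z + (m : ℤ) • trPart (-1) = z) ↔ _
  rw [key]
  constructor
  · rintro ⟨h, h'⟩
    refine ⟨h, ?_⟩
    obtain ⟨h1, h2, h3, -⟩ := h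
    omega
  · rintro ⟨h, h'⟩
    refine ⟨h, ?_⟩
    obtain ⟨h1, h2, h3, -⟩ := h
    omega

theorem mk_chi_one : (PowerSeries.mk fun m => chi action (polytope vertices) m 1) =
    hil (fdeg (fun _ _ => True)) * hil sdeg := by
  rw [← hil_prod _ _ (fdeg_fiber _) sdeg_fiber, hil]
  congr 1
  ext m
  exact chi_one m

theorem mk_chi_neg : (PowerSeries.mk fun m => chi action (polytope vertices) m (-1)) =
    hil (fdeg (fun s x => 2 * x = s)) * hil sdeg := by
  rw [← hil_prod _ _ (fdeg_fiber _) sdeg_fiber, hil]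
  congr 1
  ext m
  exact chi_neg m

theorem charpolyRev_one_aux (n : ℕ) :
    ((1 : Matrix (Fin n) (Fin n) ℤ)).charpolyRev = (1 - Polynomial.X) ^ n := by
  rw [Matrix.charpolyRev, Matrix.map_one _ (map_zero _) (map_one _)]
  have : (1 : Matrix (Fin n) (Fin n) (Polynomial ℤ)) - (Polynomial.X : Polynomial ℤ) • 1 =
      (1 - Polynomial.X : Polynomial ℤ) • 1 := by
    rw [sub_smul, one_smul]
  rw [this, Matrix.det_smul, Matrix.det_one, mul_one, Fintype.card_fin]

theorem charpolyRev_one : (linPart 1).charpolyRev = (1 - Polynomial.X) ^ 8 := by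
  rw [linPart_one]
  exact charpolyRev_one_aux 8

theorem charpolyRev_neg : (linPart (-1)).charpolyRev =
    (1 + Polynomial.X) * (1 - Polynomial.X) ^ 7 := by
  rw [linPart_neg, Matrix.charpolyRev, Matrix.det_of_isUpperTriangular]
  · simp [Fin.prod_univ_succ, flip]
  · intro i j hij
    have hij' : j < i := hij
    have hi : i ≠ 0 := fun h => by simp [h] at hij'
    have hne : i ≠ j := hij'.ne'
    simp [flip, hi, hne]

theorem hStar_one : hStar action (polytope vertices) 1 =
    (1 + PowerSeries.X) * (1 + PowerSeries.X ^ 3) := by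
  rw [hStar, mk_chi_one]
  show (1 - PowerSeries.X) * ((linPart 1).charpolyRev : PowerSeries ℤ) * _ = _
  rw [charpolyRev_one]
  push_cast
  rw [← hil_true, ← hil_sdeg]
  ring

theorem hStar_neg : hStar action (polytope vertices) (-1) =
    (1 + PowerSeries.X ^ 2) * (1 - PowerSeries.X + PowerSeries.X ^ 2) := by
  rw [hStar, mk_chi_neg]
  show (1 - PowerSeries.X) * ((linPart (-1)).charpolyRev : PowerSeries ℤ) * _ = _
  rw [charpolyRev_neg]
  push_cast
  have h1 := hil_half
  have h2 := hil_sdeg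
  have h0 : (1 + PowerSeries.X : PowerSeries ℤ) ≠ 0 := by
    intro h
    have := congrArg (PowerSeries.coeff 0) h
    simp at this
  apply mul_left_cancel₀ h0
  calc _ = ((1 - PowerSeries.X ^ 2) ^ 2 * hil (fdeg (fun s x => 2 * x = s))) *
        ((1 - PowerSeries.X) ^ 6 * hil sdeg) := by ring
    _ = (1 + PowerSeries.X ^ 2) * (1 + PowerSeries.X ^ 3) := by rw [h1, h2]
    _ = _ := by ring

/-- The first series, as a polynomial. -/
theorem hStar_one_eq : hStar action (polytope vertices) 1 =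
    ((1 + Polynomial.X + Polynomial.X ^ 3 + Polynomial.X ^ 4 : Polynomial ℤ) :
      PowerSeries ℤ) := by
  rw [hStar_one]
  push_cast
  ring

/-- The second series, as a polynomial. -/
theorem hStar_neg_eq : hStar action (polytope vertices) (-1) =
    ((1 - Polynomial.X + (Polynomial.X ^ 2 + Polynomial.X ^ 2) - Polynomial.X ^ 3 +
      Polynomial.X ^ 4 : Polynomial ℤ) : PowerSeries ℤ) := by
  rw [hStar_neg]
  push_cast
  ring

theorem isPolynomial_polytope : IsPolynomial action (polytope vertices) := by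
  refine ⟨4, fun n hn u => ?_⟩
  rcases Int.units_eq_one_or u with rfl | rfl
  · rw [hStarCoeff, hStar_one_eq, Polynomial.coeff_coe]
    apply Polynomial.coeff_eq_zero_of_natDegree_lt
    refine lt_of_le_of_lt ?_ hn
    compute_degree
  · rw [hStarCoeff, hStar_neg_eq, Polynomial.coeff_coe]
    apply Polynomial.coeff_eq_zero_of_natDegree_lt
    refine lt_of_le_of_lt ?_ hn
    compute_degree

theorem coeff_two_one : hStarCoeff action (polytope vertices) 2 1 = 0 := by
  rw [hStarCoeff, hStar_one_eq, Polynomial.coeff_coe]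
  simp [Polynomial.coeff_one, Polynomial.coeff_X, Polynomial.coeff_X_pow]

theorem coeff_two_neg : hStarCoeff action (polytope vertices) 2 (-1) = 2 := by
  rw [hStarCoeff, hStar_neg_eq, Polynomial.coeff_coe]
  simp [Polynomial.coeff_one, Polynomial.coeff_X, Polynomial.coeff_X_pow]

theorem not_isEffective_polytope : ¬ IsEffective action (polytope vertices) := by
  intro h
  obtain ⟨W, hW⟩ := h 2
  have h1 := hW 1
  rw [coeff_two_one, FDRep.char_one, Int.cast_zero, Nat.cast_eq_zero,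
    Module.finrank_zero_iff] at h1
  have h2 := hW (-1)
  rw [coeff_two_neg] at h2
  have h3 : W.character (-1) = 0 := by
    unfold FDRep.character
    have : W.ρ (-1) = 0 := by
      ext x
      exact Subsingleton.elim _ _
    rw [this, map_zero]
  rw [h3] at h2
  norm_num at h2

/-- **Polynomial equivariant `H^*`-series need not be effective.**  It is not true that for every
finite group `G` and every `G`-invariant full-dimensional lattice polytope `P` in `ℝ^d`, with `G`
acting on `ℤ^d` by affine lattice automorphisms, polynomiality of the equivariant `H^*`-series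
implies its effectiveness.  Moreover there is a counterexample in which `G` has order two and
`d = 8`, with `H^*(t)(1) = (1 + t)(1 + t^3) = 1 + t + t^3 + t^4` and
`H^*(t)(-1) = (1 + t^2)(1 - t + t^2) = 1 - t + 2 t^2 - t^3 + t^4`; so the class function `H^*_2`
takes the values `0` and `2`. -/
theorem result :
    (¬ ∀ (G : Type) [Group G] [Finite G] (d : ℕ) (A : AffineAction G d)
      (V : Finset (Fin d → ℤ)), affineSpan ℝ (polytope V) = ⊤ → Invariant A (polytope V) →
        IsPolynomial A (polytope V) → IsEffective A (polytope V)) ∧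
    ∃ (A : AffineAction ℤˣ 8) (V : Finset (Fin 8 → ℤ)),
      affineSpan ℝ (polytope V) = ⊤ ∧ Invariant A (polytope V) ∧
      IsPolynomial A (polytope V) ∧ ¬ IsEffective A (polytope V) ∧
      hStar A (polytope V) 1 = (1 + PowerSeries.X) * (1 + PowerSeries.X ^ 3) ∧
      hStar A (polytope V) (-1) =
        (1 + PowerSeries.X ^ 2) * (1 - PowerSeries.X + PowerSeries.X ^ 2) := by
  refine ⟨fun h => ?_, action, vertices, affineSpan_polytope, invariant_polytope,
    isPolynomial_polytope, not_isEffective_polytope, hStar_one, hStar_neg⟩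
  exact not_isEffective_polytope (h ℤˣ 8 action vertices affineSpan_polytope invariant_polytope
    isPolynomial_polytope)

end Pool.Agent.Results.MP_3885fd_co.PolynomialNotEffective
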